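import Pool.Agent.X280.HP.WeiUnif

/-!
# The analytic Nagao conjecture: the truncated series of all pencils of Weierstrass cubics

For polynomials `A, B` with integral coefficients let `A_p(ℰ)` be the fibral average of the Frobenius traces
at `p` of `ℰ : y² = x³ + A(T) x + B(T)`.  The analytic Nagao conjecture states that the Dirichlet series
`D(s) = ∑_p A_p(ℰ) log p / p^s` is meromorphic at `s = 1` with residue minus the rank of `ℰ(ℚ(T))`; if the rank
is zero, it predicts that `D` is holomorphic at `s = 1`.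

We consider the truncated series `D_T(s) = ∑_{p ≤ T} A_p(ℰ) log p / p^s` of ALL pencils with `deg A ≤ a`,
`deg B ≤ b`, where `a, b ≥ 1`, with coefficients of absolute value at most `H`, for which the generic rank is
zero.  We show that in the family the numbers `A_p(ℰ)` have the mean value `0`, are uncorrelated and have the
variance `1 - 1/p` (and `0` for `p = 2`), with an explicit error term for all linear forms
(`∑_{p ∈ P} z(p) A_p(ℰ)`), and that for all but the part `M / l²` of the pencils the truncated series are bounded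
by `l` on the whole compact set `Re s ≥ σ, |s| ≤ R`, for all `σ > 1/2`, in particular in a neighbourhood of
`s = 1`, uniformly in `T ≤ H^{1/4}`.  (For a pencil of rank `r` the value `D_T(1)` should be about
`-r log T`.)

The coefficients of `A` are `c (inl 0), …, c (inl a)`, those of `B` are `c (inr 0), …, c (inr b)`;
`polyOf v` is the polynomial with the coefficients `v 0, …, v n`; `affinePts p α β` is the number of the
solutions of `y² = x³ + α x + β` in `𝔽_p`, `frobTrace A B p t = p - affinePts p (A t) (B t)`,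
`fibralAverage A B p` is `A_p(ℰ)`, `dirPartial A B T s` is `D_T(s)`, `primesUpTo T` is the set of the primes
`p ≤ T`, `vr p` is `1 - 1/p` for `p ≠ 2` and `vr 2 = 0`, and `EB H f` is the mean value of `f` over the integral
vectors `c` with coefficients of absolute value at most `H`.
-/

set_option autoImplicit false

namespace Pool.Agent.Results.MP_a4e5f3_nt.TruncatedSeriesInMeanSquare

open Pool.Agent.Y722.HS Pool.Agent.X280.HG Pool.Agent.X280.HP

/-- Let `a, b ≥ 1`.

(1) For all finite sets `P` of primes with `p q ≤ 2 H + 1` for `p, q ∈ P` and all complex weights `z(p)` the mean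
value of `|∑_{p ∈ P} z(p) A_p(ℰ)|²` over all the pencils with coefficients of absolute value at most `H`
differs from `∑_{p ∈ P} |z(p)|² v(p)`, `v(p) = 1 - 1/p` for odd `p`, `v(2) = 0`, by at most
`2^(a + b + 2) (∑_{p ∈ P} |z(p)| p)² / (2 H + 1)`.

(2) For `σ > 1/2` and `R` there is an `M` such that for all `T`, all `H ≥ T^4` and all `l > 0` the proportion,
among the pencils with coefficients of absolute value at most `H`, of those with `|D_T(s)| ≥ l` for at least one
`s` with `Re s ≥ σ`, `|s| ≤ R` is at most `M / l²`. -/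
theorem result (a b : ℕ) (ha : 1 ≤ a) (hb : 1 ≤ b) :
    (∀ P : Finset ℕ, (∀ p ∈ P, p.Prime) → ∀ (z : ℕ → ℂ) (H : ℕ),
      (∀ p ∈ P, ∀ q ∈ P, p * q ≤ 2 * H + 1) →
      |EB H (fun c : Fin (a + 1) ⊕ Fin (b + 1) → ℤ => ‖∑ p ∈ P, z p *
        (fibralAverage (polyOf fun i => c (Sum.inl i)) (polyOf fun j => c (Sum.inr j)) p : ℂ)‖ ^ 2) -
        ∑ p ∈ P, ‖z p‖ ^ 2 * vr p| ≤
      2 ^ (a + b + 2) * (∑ p ∈ P, ‖z p‖ * p) ^ 2 / (2 * H + 1)) ∧
    (∀ σ R : ℝ, 1 / 2 < σ → ∃ M : ℝ, ∀ T H : ℕ, T ^ 4 ≤ H → ∀ l : ℝ, 0 < l →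
      ({c : Fin (a + 1) ⊕ Fin (b + 1) → ℤ | (∀ q, |c q| ≤ H) ∧ ∃ s : ℂ, σ ≤ s.re ∧ ‖s‖ ≤ R ∧
        l ≤ ‖dirPartial (polyOf fun i => c (Sum.inl i)) (polyOf fun j => c (Sum.inr j)) T s‖}.ncard :
          ℝ) / (2 * H + 1 : ℝ) ^ (a + b + 2) ≤ M / l ^ 2) := by
  refine ⟨fun P hP z H hH => ?_, fun σ R hσ => unif_bound ha hb σ hσ R⟩
  have h := mean_sq ha hb P hP z H hH
  simp only [← fibralAverage_eq] at h
  exact h

end Pool.Agent.Results.MP_a4e5f3_nt.TruncatedSeriesInMeanSquare
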